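import Mathlib

/-!
# MP_9b45c5_lc, Q1: greedy MIS colouring of interference graphs uses at most `10 χ` colours

Root the tree at a vertex `ρ`.  Every request has an emission half-tree `E` and a reception
half-tree `R ⊆ E`, and `r` interferes on `r'` iff `R' ⊆ E`.  The requests split into three classes
(`ρ ∉ E`; `ρ ∈ R`; `ρ ∈ E \ R`).  In the first two classes adjacency means that the two outer sets of a
laminar family meet; an independent set has at most two elements in the third class and at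
most one element in one of the first two classes.
-/

namespace Pool.Agent.Results.MP_9b45c5_lc.GreedyMISTenApprox

open SimpleGraph

universe u v

/-! ### Definitions -/

/-- A request in a tree `T`: a directed path with at least one arc. -/
structure Request {V : Type u} (T : SimpleGraph V) where
  /-- first vertex -/
  s : V
  /-- last vertex -/
  t : V
  /-- the path -/
  path : T.Path s t
  /-- at least one arc -/
  ne : s ≠ t

/-- `r` interferes on `r'`: the path `T[s_r, t_{r'}]` has first arc `(s_r, s_r⁺)` and last arc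
`(t_{r'}⁻, t_{r'})`. -/
def Interferes {V : Type u} {T : SimpleGraph V} (r r' : Request T) : Prop :=
  ∃ p : T.Walk r.s r'.t, p.IsPath ∧ ¬ p.Nil ∧ p.snd = r.path.1.snd ∧
    p.penultimate = r'.path.1.penultimate

/-- The interference graph of a family of requests. -/
def interferenceGraph {V : Type u} {T : SimpleGraph V} {ι : Type v} (req : ι → Request T) :
    SimpleGraph ι where
  Adj i j := i ≠ j ∧ (Interferes (req i) (req j) ∨ Interferes (req j) (req i))
  symm := ⟨fun _ _ h => ⟨h.1.symm, h.2.symm⟩⟩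
  loopless := ⟨fun _ h => h.1 rfl⟩

/-- `GreedyRun G U k`: starting with the set `U` of uncoloured vertices, greedy MIS colouring
can finish with `k` new colours. -/
inductive GreedyRun {ι : Type v} [DecidableEq ι] (G : SimpleGraph ι) : Finset ι → ℕ → Prop
  | done : GreedyRun G ∅ 0
  | step (U I : Finset ι) (k : ℕ) : U.Nonempty → I ⊆ U → G.IsIndepSet (I : Set ι) →
      (∀ J : Finset ι, J ⊆ U → G.IsIndepSet (J : Set ι) → J.card ≤ I.card) →
      GreedyRun G (U \ I) k → GreedyRun G U (k + 1)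

/-! ### The abstract argument -/

section Abstract

variable {ι : Type v} {α : Type u} {G : SimpleGraph ι} {P Q S : ι → Prop} {X Y : ι → Set α}

/-- The abstract structure on the first two classes. -/
structure Lam (G : SimpleGraph ι) (P Q : ι → Prop) (X Y : ι → Set α) : Prop where
  sub : ∀ v, P v ∨ Q v → Y v ⊆ X v
  ne : ∀ v, P v ∨ Q v → (Y v).Nonempty
  lamXX : ∀ v w, P v ∨ Q v → P w ∨ Q w → (X v ∩ X w).Nonempty → X v ⊆ X w ∨ X w ⊆ X v
  lamXY : ∀ v w, P v ∨ Q v → P w ∨ Q w → (X v ∩ Y w).Nonempty → X v ⊆ Y w ∨ Y w ⊆ X v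
  lamYY : ∀ v w, P v ∨ Q v → P w ∨ Q w → (Y v ∩ Y w).Nonempty → Y v ⊆ Y w ∨ Y w ⊆ Y v
  adjP : ∀ v w, P v → P w → v ≠ w → (G.Adj v w ↔ (X v ∩ X w).Nonempty)
  adjQ : ∀ v w, Q v → Q w → v ≠ w → (G.Adj v w ↔ (X v ∩ X w).Nonempty)
  adjPQ : ∀ v w, P v → Q w → (G.Adj v w ↔ ¬ (Y v ∩ Y w).Nonempty)

theorem Lam.symm (h : Lam G P Q X Y) : Lam G Q P X Y where
  sub v hv := h.sub v hv.symm
  ne v hv := h.ne v hv.symm
  lamXX v w hv hw := h.lamXX v w hv.symm hw.symm
  lamXY v w hv hw := h.lamXY v w hv.symm hw.symm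
  lamYY v w hv hw := h.lamYY v w hv.symm hw.symm
  adjP := h.adjQ
  adjQ := h.adjP
  adjPQ v w hv hw := by
    rw [G.adj_comm, Set.inter_comm]
    exact h.adjPQ w v hw hv

theorem not_adj_of_indep {I : Finset ι} (hI : G.IsIndepSet (I : Set ι)) {v w : ι} (hv : v ∈ I)
    (hw : w ∈ I) : ¬ G.Adj v w := by
  by_cases h : v = w
  · subst h; exact G.irrefl
  · exact hI hv hw h

theorem Lam.subY (h : Lam G P Q X Y) {I : Finset ι} (hI : G.IsIndepSet (I : Set ι))
    {v w p : ι} (hv : v ∈ I) (hw : w ∈ I) (hp : p ∈ I) (hvw : v ≠ w) (Pv : P v) (Pw : P w)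
    (Qp : Q p) : Y v ⊆ Y p := by
  have h1 : ¬ (X v ∩ X w).Nonempty := by
    rw [← h.adjP v w Pv Pw hvw]; exact not_adj_of_indep hI hv hw
  have h2 : (Y v ∩ Y p).Nonempty := by
    by_contra hc
    exact not_adj_of_indep hI hv hp ((h.adjPQ v p Pv Qp).2 hc)
  have h3 : (Y w ∩ Y p).Nonempty := by
    by_contra hc
    exact not_adj_of_indep hI hw hp ((h.adjPQ w p Pw Qp).2 hc)
  rcases h.lamYY v p (Or.inl Pv) (Or.inr Qp) h2 with h4 | h4
  · exact h4
  · exfalso
    obtain ⟨x, hx1, hx2⟩ := h3
    exact h1 ⟨x, h.sub v (Or.inl Pv) (h4 hx2), h.sub w (Or.inl Pw) hx1⟩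

theorem Lam.one (h : Lam G P Q X Y) {I : Finset ι} (hI : G.IsIndepSet (I : Set ι)) :
    (∀ v ∈ I, ∀ w ∈ I, P v → P w → v = w) ∨ (∀ p ∈ I, ∀ q ∈ I, Q p → Q q → p = q) := by
  by_contra hc
  rw [not_or] at hc
  obtain ⟨h1, h2⟩ := hc
  push Not at h1 h2
  obtain ⟨v, hv, w, hw, Pv, Pw, hvw⟩ := h1
  obtain ⟨p, hp, q, hq, Qp, Qw, hpq⟩ := h2
  have h3 := h.subY hI hv hw hp hvw Pv Pw Qp
  have h4 := h.subY hI hv hw hq hvw Pv Pw Qw
  have h5 : ¬ (X p ∩ X q).Nonempty := by
    rw [← h.adjQ p q Qp Qw hpq]; exact not_adj_of_indep hI hp hq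
  obtain ⟨x, hx⟩ := h.ne v (Or.inl Pv)
  exact h5 ⟨x, h.sub p (Or.inr Qp) (h3 hx), h.sub q (Or.inr Qw) (h4 hx)⟩

/-- A nonempty clique in the class `P` has a smallest outer set. -/
theorem Lam.exists_min (h : Lam G P Q X Y) (K : Finset ι) :
    (∀ v ∈ K, P v) → G.IsClique (K : Set ι) → K.Nonempty → ∃ m ∈ K, ∀ κ ∈ K, X m ⊆ X κ := by
  classical
  induction K using Finset.induction_on with
  | empty => intro _ _ h; exact absurd h Finset.not_nonempty_empty
  | insert a K ha ih =>
    intro hP hcl _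
    rcases K.eq_empty_or_nonempty with hK | hK
    · subst hK
      exact ⟨a, by simp, by simp⟩
    · obtain ⟨m, hm, hmin⟩ := ih (fun v hv => hP v (Finset.mem_insert_of_mem hv))
        (Set.Pairwise.mono (by rw [Finset.coe_insert]; exact Set.subset_insert _ _) hcl) hK
      have ham : a ≠ m := by rintro rfl; exact ha hm
      have Pa : P a := hP a (Finset.mem_insert_self _ _)
      have Pm : P m := hP m (Finset.mem_insert_of_mem hm)
      have hadj : G.Adj a m := hcl (by simp) (by simp [hm]) ham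
      rw [h.adjP a m Pa Pm ham] at hadj
      rcases h.lamXX a m (Or.inl Pa) (Or.inl Pm) hadj with h1 | h1
      · refine ⟨a, by simp, ?_⟩
        intro κ hκ
        rcases Finset.mem_insert.1 hκ with rfl | hκ
        · exact subset_rfl
        · exact h1.trans (hmin κ hκ)
      · refine ⟨m, by simp [hm], ?_⟩
        intro κ hκ
        rcases Finset.mem_insert.1 hκ with rfl | hκ
        · exact h1
        · exact hmin κ hκ

variable [DecidableEq ι]

/-- `K ⊆ U` is a clique in the class `P` with at least `a` elements. -/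
def PureCl (G : SimpleGraph ι) (P : ι → Prop) (U : Finset ι) (a : ℕ) : Prop :=
  ∃ K : Finset ι, K ⊆ U ∧ (∀ v ∈ K, P v) ∧ G.IsClique (K : Set ι) ∧ a ≤ K.card

/-- A clique in the class `Q` with witnesses in the class `P`. -/
def MixCl (G : SimpleGraph ι) (P Q : ι → Prop) (Y : ι → Set α) (U : Finset ι) (b : ℕ) : Prop :=
  ∃ K : Finset ι, K ⊆ U ∧ (∀ v ∈ K, Q v) ∧ G.IsClique (K : Set ι) ∧ b ≤ K.card ∧
    ∀ q ∈ K, ∃ D : Finset ι, D ⊆ U ∧ (∀ v ∈ D, P v) ∧ G.IsIndepSet (D : Set ι) ∧ 4 ≤ D.card ∧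
      ∀ s ∈ D, Y s ⊆ Y q

theorem PureCl.mono {U U' : Finset ι} (hU : U ⊆ U') {a : ℕ} (h : PureCl G P U a) :
    PureCl G P U' a := by
  obtain ⟨K, h1, h2, h3, h4⟩ := h
  exact ⟨K, h1.trans hU, h2, h3, h4⟩

theorem MixCl.mono {U U' : Finset ι} (hU : U ⊆ U') {b : ℕ} (h : MixCl G P Q Y U b) :
    MixCl G P Q Y U' b := by
  obtain ⟨K, h1, h2, h3, h4, h5⟩ := h
  refine ⟨K, h1.trans hU, h2, h3, h4, ?_⟩
  intro q hq
  obtain ⟨D, g1, g2, g3, g4, g5⟩ := h5 q hq
  exact ⟨D, g1.trans hU, g2, g3, g4, g5⟩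

theorem Lam.pure_step (h : Lam G P Q X Y) {U I K : Finset ι} (hIU : I ⊆ U)
    (hI : G.IsIndepSet (I : Set ι))
    (hmax : ∀ J : Finset ι, J ⊆ U → G.IsIndepSet (J : Set ι) → J.card ≤ I.card)
    (hne : I.Nonempty) (hIP : ∀ v ∈ I, P v) (hK : K ⊆ U \ I) (hKP : ∀ v ∈ K, P v)
    (hcl : G.IsClique (K : Set ι)) : ∃ x ∈ I, G.IsClique ((insert x K : Finset ι) : Set ι) := by
  rcases K.eq_empty_or_nonempty with hK0 | hK0
  · obtain ⟨x, hx⟩ := hne
    refine ⟨x, hx, ?_⟩
    subst hK0
    simp
  · obtain ⟨m, hm, hmin⟩ := h.exists_min K hKP hcl hK0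
    have hmU : m ∈ U := (Finset.mem_sdiff.1 (hK hm)).1
    have hmI : m ∉ I := (Finset.mem_sdiff.1 (hK hm)).2
    have hex : ∃ x ∈ I, (X x ∩ X m).Nonempty := by
      by_contra hc
      push Not at hc
      have hind : G.IsIndepSet ((insert m I : Finset ι) : Set ι) := by
        rw [Finset.coe_insert]
        intro a ha b hb hab
        rcases ha with rfl | ha
        · rcases hb with rfl | hb
          · exact absurd rfl hab
          · rw [h.adjP a b (hKP a hm) (hIP b hb) hab]
            rw [Set.inter_comm, hc b hb]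
            exact Set.not_nonempty_empty
        · rcases hb with rfl | hb
          · rw [h.adjP a b (hIP a ha) (hKP b hm) hab]
            rw [hc a ha]
            exact Set.not_nonempty_empty
          · exact hI ha hb hab
      have := hmax _ (Finset.insert_subset hmU hIU) hind
      rw [Finset.card_insert_of_notMem hmI] at this
      omega
    obtain ⟨x, hx, y, hy1, hy2⟩ := hex
    refine ⟨x, hx, ?_⟩
    have hadj : ∀ κ ∈ K, G.Adj x κ := by
      intro κ hκ
      have hne' : x ≠ κ := by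
        rintro rfl
        exact (Finset.mem_sdiff.1 (hK hκ)).2 hx
      rw [h.adjP x κ (hIP x hx) (hKP κ hκ) hne']
      exact ⟨y, hy1, hmin κ hκ hy2⟩
    rw [Finset.coe_insert]
    intro a ha b hb hab
    rcases ha with rfl | ha
    · rcases hb with rfl | hb
      · exact absurd rfl hab
      · exact hadj b hb
    · rcases hb with rfl | hb
      · exact (hadj a ha).symm
      · exact hcl ha hb hab

theorem Lam.mixed_adj (h : Lam G P Q X Y) {U I D Dq : Finset ι} {p q : ι} (hIU : I ⊆ U)
    (hI : G.IsIndepSet (I : Set ι))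
    (hmax : ∀ J : Finset ι, J ⊆ U → G.IsIndepSet (J : Set ι) → J.card ≤ I.card)
    (hDI : D ⊆ I) (hDP : ∀ v ∈ D, P v) (hcard : I.card ≤ D.card + 1)
    (Qp : Q p) (hDp : ∀ s ∈ D, Y s ⊆ Y p) (hpq : p ≠ q) (Qw : Q q)
    (hDq : Dq ⊆ U \ I) (hDqP : ∀ v ∈ Dq, P v) (hDqI : G.IsIndepSet (Dq : Set ι))
    (h4 : 4 ≤ Dq.card) (hDqY : ∀ s ∈ Dq, Y s ⊆ Y q) : G.Adj p q := by
  classical
  by_contra hadj
  rw [h.adjQ p q Qp Qw hpq] at hadj
  have hDI' : G.IsIndepSet (D : Set ι) := hI.mono (by exact_mod_cast hDI)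
  -- a general counting fact
  have key : ∀ (F : Finset ι) (Z : Set α), (∀ v ∈ F, P v) → G.IsIndepSet (F : Set ι) →
      Z.Nonempty → F.card ≤ (F.filter (fun r => ¬ Z ⊆ X r)).card + 1 := by
    intro F Z hF1 hF2 hZ
    have h1 : (F.filter (fun r => Z ⊆ X r)).card ≤ 1 := by
      rw [Finset.card_le_one]
      intro a ha b hb
      rw [Finset.mem_filter] at ha hb
      by_contra hab
      have := not_adj_of_indep hF2 ha.1 hb.1
      rw [h.adjP a b (hF1 a ha.1) (hF1 b hb.1) hab] at this
      obtain ⟨z, hz⟩ := hZ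
      exact this ⟨z, ha.2 hz, hb.2 hz⟩
    have h2 := Finset.card_filter_add_card_filter_not (s := F) (fun r => Z ⊆ X r)
    omega
  have hd1 := key D (Y q) hDP hDI' (h.ne q (Or.inr Qw))
  have hd2 := key Dq (Y p) hDqP hDqI (h.ne p (Or.inr Qp))
  set D' := D.filter (fun r => ¬ Y q ⊆ X r) with hD'
  set Dq' := Dq.filter (fun r => ¬ Y p ⊆ X r) with hDq'
  have hdisj : Disjoint D' Dq' := by
    rw [Finset.disjoint_left]
    intro a ha hb
    rw [hD', Finset.mem_filter] at ha
    rw [hDq', Finset.mem_filter] at hb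
    exact (Finset.mem_sdiff.1 (hDq hb.1)).2 (hDI ha.1)
  have hcross : ∀ r ∈ D', ∀ s ∈ Dq', ¬ (X r ∩ X s).Nonempty := by
    intro r hr s hs hne
    rw [hD', Finset.mem_filter] at hr
    rw [hDq', Finset.mem_filter] at hs
    have Pr := hDP r hr.1
    have Ps := hDqP s hs.1
    rcases h.lamXX r s (Or.inl Pr) (Or.inl Ps) hne with h1 | h1
    · -- `X r ⊆ X s`
      obtain ⟨z, hz⟩ := h.ne r (Or.inl Pr)
      have hz1 : z ∈ X s := h1 (h.sub r (Or.inl Pr) hz)
      have hz2 : z ∈ Y p := hDp r hr.1 hz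
      rcases h.lamXY s p (Or.inl Ps) (Or.inr Qp) ⟨z, hz1, hz2⟩ with h2 | h2
      · obtain ⟨y, hy⟩ := h.ne s (Or.inl Ps)
        exact hadj ⟨y, h.sub p (Or.inr Qp) (h2 (h.sub s (Or.inl Ps) hy)),
          h.sub q (Or.inr Qw) (hDqY s hs.1 hy)⟩
      · exact hs.2 h2
    · obtain ⟨z, hz⟩ := h.ne s (Or.inl Ps)
      have hz1 : z ∈ X r := h1 (h.sub s (Or.inl Ps) hz)
      have hz2 : z ∈ Y q := hDqY s hs.1 hz
      rcases h.lamXY r q (Or.inl Pr) (Or.inr Qw) ⟨z, hz1, hz2⟩ with h2 | h2
      · obtain ⟨y, hy⟩ := h.ne r (Or.inl Pr)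
        exact hadj ⟨y, h.sub p (Or.inr Qp) (hDp r hr.1 hy),
          h.sub q (Or.inr Qw) (h2 (h.sub r (Or.inl Pr) hy))⟩
      · exact hr.2 h2
  have hJ : G.IsIndepSet ((D' ∪ Dq' : Finset ι) : Set ι) := by
    rw [Finset.coe_union]
    intro a ha b hb hab
    rcases ha with ha | ha
    · rcases hb with hb | hb
      · exact hDI' (Finset.filter_subset _ _ ha) (Finset.filter_subset _ _ hb) hab
      · have ha' := Finset.filter_subset _ _ ha
        have hb' := Finset.filter_subset _ _ hb
        rw [h.adjP a b (hDP a ha') (hDqP b hb') hab]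
        exact hcross a ha b hb
    · rcases hb with hb | hb
      · have ha' := Finset.filter_subset _ _ ha
        have hb' := Finset.filter_subset _ _ hb
        rw [h.adjP a b (hDqP a ha') (hDP b hb') hab, Set.inter_comm]
        exact hcross b hb a ha
      · exact hDqI (Finset.filter_subset _ _ ha) (Finset.filter_subset _ _ hb) hab
  have hJU : D' ∪ Dq' ⊆ U := by
    apply Finset.union_subset
    · exact (Finset.filter_subset _ _).trans (hDI.trans hIU)
    · exact (Finset.filter_subset _ _).trans (hDq.trans Finset.sdiff_subset)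
  have h5 := hmax _ hJU hJ
  rw [Finset.card_union_of_disjoint hdisj] at h5
  omega

theorem Lam.step_aux (h : Lam G P Q X Y) {U I : Finset ι} (hIU : I ⊆ U)
    (hI : G.IsIndepSet (I : Set ι))
    (hmax : ∀ J : Finset ι, J ⊆ U → G.IsIndepSet (J : Set ι) → J.card ≤ I.card)
    (hcov : ∀ v ∈ I, P v ∨ Q v) (h5 : 5 ≤ I.card)
    (hQ : ∀ p ∈ I, ∀ q ∈ I, Q p → Q q → p = q) {a b : ℕ}
    (ha : PureCl G P (U \ I) a) (hb : MixCl G P Q Y (U \ I) b) :
    (PureCl G P U (a + 1) ∧ MixCl G P Q Y U b) ∨
      (PureCl G P U a ∧ MixCl G P Q Y U (b + 1)) := by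
  classical
  by_cases hex : ∃ p ∈ I, Q p
  · right
    refine ⟨ha.mono Finset.sdiff_subset, ?_⟩
    obtain ⟨p, hp, Qp⟩ := hex
    set D := I.filter P with hD
    have hDI : D ⊆ I := Finset.filter_subset _ _
    have hDP : ∀ v ∈ D, P v := fun v hv => (Finset.mem_filter.1 hv).2
    have hcard : I.card ≤ D.card + 1 := by
      have h1 : I ⊆ insert p D := by
        intro v hv
        rcases hcov v hv with hPv | hQv
        · exact Finset.mem_insert_of_mem (Finset.mem_filter.2 ⟨hv, hPv⟩)
        · rw [hQ v hv p hp hQv Qp]; exact Finset.mem_insert_self _ _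
      exact (Finset.card_le_card h1).trans (Finset.card_insert_le _ _)
    have hDp : ∀ s ∈ D, Y s ⊆ Y p := by
      intro s hs
      obtain ⟨w, hw, hws⟩ := Finset.exists_mem_ne (show 1 < D.card by omega) s
      exact h.subY hI (hDI hs) (hDI hw) hp (Ne.symm hws) (hDP s hs) (hDP w hw) Qp
    obtain ⟨K, k1, k2, k3, k4, k5⟩ := hb
    have hpK : p ∉ K := fun hc => (Finset.mem_sdiff.1 (k1 hc)).2 hp
    have hadj : ∀ q ∈ K, G.Adj p q := by
      intro q hq
      obtain ⟨Dq, g1, g2, g3, g4, g5⟩ := k5 q hq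
      have hpq : p ≠ q := by rintro rfl; exact hpK hq
      exact h.mixed_adj hIU hI hmax hDI hDP hcard Qp hDp hpq (k2 q hq) g1 g2 g3 g4 g5
    refine ⟨insert p K, ?_, ?_, ?_, ?_, ?_⟩
    · exact Finset.insert_subset (hIU hp) (k1.trans Finset.sdiff_subset)
    · intro v hv
      rcases Finset.mem_insert.1 hv with rfl | hv
      · exact Qp
      · exact k2 v hv
    · rw [Finset.coe_insert]
      intro x hx y hy hxy
      rcases hx with rfl | hx
      · rcases hy with rfl | hy
        · exact absurd rfl hxy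
        · exact hadj y hy
      · rcases hy with rfl | hy
        · exact (hadj x hx).symm
        · exact k3 hx hy hxy
    · rw [Finset.card_insert_of_notMem hpK]; omega
    · intro q hq
      rcases Finset.mem_insert.1 hq with rfl | hq
      · exact ⟨D, hDI.trans hIU, hDP, hI.mono (by exact_mod_cast hDI), by omega, hDp⟩
      · obtain ⟨Dq, g1, g2, g3, g4, g5⟩ := k5 q hq
        exact ⟨Dq, g1.trans Finset.sdiff_subset, g2, g3, g4, g5⟩
  · left
    refine ⟨?_, hb.mono Finset.sdiff_subset⟩
    push Not at hex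
    have hIP : ∀ v ∈ I, P v := by
      intro v hv
      rcases hcov v hv with h1 | h1
      · exact h1
      · exact absurd h1 (hex v hv)
    obtain ⟨K, k1, k2, k3, k4⟩ := ha
    have hne : I.Nonempty := Finset.card_pos.1 (by omega)
    obtain ⟨x, hx, hcl⟩ := h.pure_step hIU hI hmax hne hIP k1 k2 k3
    have hxK : x ∉ K := fun hc => (Finset.mem_sdiff.1 (k1 hc)).2 hx
    refine ⟨insert x K, ?_, ?_, hcl, ?_⟩
    · exact Finset.insert_subset (hIU hx) (k1.trans Finset.sdiff_subset)
    · intro v hv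
      rcases Finset.mem_insert.1 hv with rfl | hv
      · exact hIP v hx
      · exact k2 v hv
    · rw [Finset.card_insert_of_notMem hxK]; omega

theorem color_bound {c : ℕ} (hc : G.Colorable c) (U : Finset ι) (m : ℕ)
    (h : ∀ J : Finset ι, J ⊆ U → G.IsIndepSet (J : Set ι) → J.card ≤ m) : U.card ≤ c * m := by
  classical
  obtain ⟨C⟩ := hc
  have h1 : U.card = ∑ a : Fin c, (U.filter (fun v => C v = a)).card :=
    Finset.card_eq_sum_card_fiberwise (fun _ _ => Finset.mem_univ _)
  rw [h1]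
  have h2 : ∑ a : Fin c, (U.filter (fun v => C v = a)).card ≤ ∑ _a : Fin c, m := by
    apply Finset.sum_le_sum
    intro a _
    apply h _ (Finset.filter_subset _ _)
    intro x hx y hy _ hadj
    rw [Finset.mem_coe, Finset.mem_filter] at hx hy
    exact C.valid hadj (hx.2.trans hy.2.symm)
  simpa using h2

theorem run_le_card {U : Finset ι} {k : ℕ} (h : GreedyRun G U k) : k ≤ U.card := by
  induction h with
  | done => simp
  | step U I k hU hIU hI hmax _ ih =>
    obtain ⟨x, hx⟩ := hU
    have h1 : 1 ≤ I.card := by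
      have := hmax {x} (by simpa using hx) (by simp)
      simpa using this
    rw [Finset.card_sdiff_of_subset hIU] at ih
    have := Finset.card_le_card hIU
    omega

theorem run_bound (h : Lam G P Q X Y) (hcov : ∀ v, P v ∨ Q v ∨ S v) {c : ℕ}
    (hc : G.Colorable c) {U : Finset ι} {k : ℕ} (hrun : GreedyRun G U k) :
    ∃ e s a₁ a₂ b₁ b₂ : ℕ, k ≤ e + s + a₁ + a₂ + b₁ + b₂ ∧ e ≤ c * 4 ∧
      (∃ F : Finset ι, F ⊆ U ∧ (∀ v ∈ F, S v) ∧ s ≤ F.card) ∧
      PureCl G P U a₁ ∧ PureCl G Q U a₂ ∧ MixCl G P Q Y U b₁ ∧ MixCl G Q P Y U b₂ := by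
  have triv : ∀ U : Finset ι, (∃ F : Finset ι, F ⊆ U ∧ (∀ v ∈ F, S v) ∧ 0 ≤ F.card) ∧
      PureCl G P U 0 ∧ PureCl G Q U 0 ∧ MixCl G P Q Y U 0 ∧ MixCl G Q P Y U 0 := by
    intro U
    refine ⟨⟨∅, by simp, by simp, by simp⟩, ⟨∅, by simp, by simp, by simp, by simp⟩,
      ⟨∅, by simp, by simp, by simp, by simp⟩, ⟨∅, by simp, by simp, by simp, by simp, by simp⟩,
      ⟨∅, by simp, by simp, by simp, by simp, by simp⟩⟩
  induction hrun with
  | done =>
    obtain ⟨t1, t2, t3, t4, t5⟩ := triv ∅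
    exact ⟨0, 0, 0, 0, 0, 0, by simp, by simp, t1, t2, t3, t4, t5⟩
  | step U I k hU hIU hI hmax hrun ih =>
    obtain ⟨e, s, a₁, a₂, b₁, b₂, hk, he, ⟨F, f1, f2, f3⟩, ha1, ha2, hb1, hb2⟩ := ih
    by_cases hsmall : I.card ≤ 4
    · obtain ⟨t1, t2, t3, t4, t5⟩ := triv U
      refine ⟨k + 1, 0, 0, 0, 0, 0, by simp, ?_, t1, t2, t3, t4, t5⟩
      have h1 : k + 1 ≤ U.card := run_le_card (GreedyRun.step U I k hU hIU hI hmax hrun)
      have h2 : U.card ≤ c * 4 := color_bound hc U 4 fun J hJ hJI => (hmax J hJ hJI).trans hsmall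
      omega
    · by_cases hS : ∃ x ∈ I, S x
      · obtain ⟨x, hx, Sx⟩ := hS
        have hxF : x ∉ F := fun hc => (Finset.mem_sdiff.1 (f1 hc)).2 hx
        refine ⟨e, s + 1, a₁, a₂, b₁, b₂, by omega, he, ⟨insert x F, ?_, ?_, ?_⟩,
          ha1.mono Finset.sdiff_subset, ha2.mono Finset.sdiff_subset,
          hb1.mono Finset.sdiff_subset, hb2.mono Finset.sdiff_subset⟩
        · exact Finset.insert_subset (hIU hx) (f1.trans Finset.sdiff_subset)
        · intro v hv
          rcases Finset.mem_insert.1 hv with rfl | hv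
          · exact Sx
          · exact f2 v hv
        · rw [Finset.card_insert_of_notMem hxF]; omega
      · push Not at hS
        have hcov' : ∀ v ∈ I, P v ∨ Q v := by
          intro v hv
          rcases hcov v with h1 | h1 | h1
          · exact Or.inl h1
          · exact Or.inr h1
          · exact absurd h1 (hS v hv)
        have hF : ∃ F : Finset ι, F ⊆ U ∧ (∀ v ∈ F, S v) ∧ s ≤ F.card :=
          ⟨F, f1.trans Finset.sdiff_subset, f2, f3⟩
        rcases h.one hI with h1 | h1
        · -- at most one element in class `P`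
          rcases h.symm.step_aux hIU hI hmax (fun v hv => (hcov' v hv).symm) (by omega) h1
            ha2 hb2 with ⟨g1, g2⟩ | ⟨g1, g2⟩
          · exact ⟨e, s, a₁, a₂ + 1, b₁, b₂, by omega, he, hF, ha1.mono Finset.sdiff_subset, g1,
              hb1.mono Finset.sdiff_subset, g2⟩
          · exact ⟨e, s, a₁, a₂, b₁, b₂ + 1, by omega, he, hF, ha1.mono Finset.sdiff_subset, g1,
              hb1.mono Finset.sdiff_subset, g2⟩
        · rcases h.step_aux hIU hI hmax hcov' (by omega) h1
            ha1 hb1 with ⟨g1, g2⟩ | ⟨g1, g2⟩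
          · exact ⟨e, s, a₁ + 1, a₂, b₁, b₂, by omega, he, hF, g1, ha2.mono Finset.sdiff_subset,
              g2, hb2.mono Finset.sdiff_subset⟩
          · exact ⟨e, s, a₁, a₂, b₁ + 1, b₂, by omega, he, hF, g1, ha2.mono Finset.sdiff_subset,
              g2, hb2.mono Finset.sdiff_subset⟩

/-- The abstract bound. -/
theorem abstract_bound (h : Lam G P Q X Y) (hcov : ∀ v, P v ∨ Q v ∨ S v)
    (h3 : ∀ J : Finset ι, (∀ v ∈ J, S v) → G.IsIndepSet (J : Set ι) → J.card ≤ 2) {c : ℕ}
    (hc : G.Colorable c) {U : Finset ι} {k : ℕ} (hrun : GreedyRun G U k) : k ≤ 10 * c := by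
  obtain ⟨e, s, a₁, a₂, b₁, b₂, hk, he, ⟨F, f1, f2, f3⟩, ⟨K1, _, _, c1, d1⟩, ⟨K2, _, _, c2, d2⟩,
    ⟨K3, _, _, c3, d3, _⟩, ⟨K4, _, _, c4, d4, _⟩⟩ := run_bound h hcov hc hrun
  have e1 := c1.card_le_of_colorable hc
  have e2 := c2.card_le_of_colorable hc
  have e3 := c3.card_le_of_colorable hc
  have e4 := c4.card_le_of_colorable hc
  have e5 : F.card ≤ c * 2 := color_bound hc F 2 fun J hJ hJI =>
    h3 J (fun v hv => f2 v (hJ hv)) hJI
  omega

end Abstract


/-! ### Half-trees -/

section TreePart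

variable {V : Type u} {T : SimpleGraph V}

/-- `T` without the edge `ab`. -/
def cut (T : SimpleGraph V) (a b : V) : SimpleGraph V where
  Adj x y := T.Adj x y ∧ s(x, y) ≠ s(a, b)
  symm := ⟨fun x y h => ⟨h.1.symm, by rw [Sym2.eq_swap]; exact h.2⟩⟩
  loopless := ⟨fun x h => T.irrefl h.1⟩

theorem cut_comm (a b : V) : cut T a b = cut T b a := by
  ext x y
  simp only [cut]
  rw [Sym2.eq_swap (a := a) (b := b)]

/-- The component of `b` in `T - ab`. -/
def side (T : SimpleGraph V) (a b : V) : Set V := {x | (cut T a b).Reachable b x}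

theorem self_mem_side (a b : V) : b ∈ side T a b := Reachable.refl _

theorem not_mem_side (hT : T.IsTree) {a b : V} (hab : T.Adj a b) : a ∉ side T a b := by
  intro h
  have h1 := (isAcyclic_iff_forall_adj_isBridge.1 hT.isAcyclic) hab
  rw [isBridge_iff] at h1
  apply h1
  have h2 : cut T a b ≤ T.deleteEdges {s(a, b)} := by
    intro x y hxy
    rw [deleteEdges_adj]
    exact ⟨hxy.1, by simpa using hxy.2⟩
  have h3 : (cut T a b).Reachable b a := h
  exact h3.symm.mono h2

theorem mem_side_or (hT : T.IsTree) {a b : V} (x : V) : x ∈ side T a b ∨ x ∈ side T b a := by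
  obtain ⟨p⟩ := hT.connected.preconnected b x
  have key : ∀ (u v : V) (_ : T.Walk u v), (u ∈ side T a b ∨ u ∈ side T b a) →
      (v ∈ side T a b ∨ v ∈ side T b a) := by
    intro u v p
    induction p with
    | nil => exact id
    | @cons u w v h q ih =>
      intro hu
      apply ih
      by_cases he : s(u, w) = s(a, b)
      · rcases Sym2.eq_iff.1 he with ⟨-, rfl⟩ | ⟨-, rfl⟩
        · exact Or.inl (self_mem_side _ _)
        · exact Or.inr (self_mem_side _ _)
      · rcases hu with hu | hu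
        · left
          have h1 : (cut T a b).Adj u w := ⟨h, he⟩
          exact Reachable.trans hu h1.reachable
        · right
          have h1 : (cut T b a).Adj u w := ⟨h, by rw [Sym2.eq_swap (a := b)]; exact he⟩
          exact Reachable.trans hu h1.reachable
  exact key b x p (Or.inl (self_mem_side a b))

theorem side_disj (hT : T.IsTree) {a b : V} (hab : T.Adj a b) {x : V} (h1 : x ∈ side T a b)
    (h2 : x ∈ side T b a) : False := by
  have h3 : (cut T a b).Reachable b x := h1
  have h4 : (cut T b a).Reachable a x := h2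
  rw [cut_comm] at h4
  exact not_mem_side hT hab (h3.trans h4.symm)

theorem compl_side (hT : T.IsTree) {a b : V} (hab : T.Adj a b) :
    (side T a b)ᶜ = side T b a := by
  ext x
  constructor
  · intro hx
    exact (mem_side_or hT x).resolve_left hx
  · intro hx hx'
    exact side_disj hT hab hx' hx

theorem side_conn {a b c d x y : V} (hcd : c ∉ side T a b ∨ d ∉ side T a b)
    (hx : x ∈ side T a b) (hy : y ∈ side T a b) : (cut T c d).Reachable x y := by
  have hx' : (cut T a b).Reachable b x := hx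
  have hy' : (cut T a b).Reachable b y := hy
  obtain ⟨p⟩ := hx'.symm.trans hy'
  have key : ∀ (u v : V) (_ : (cut T a b).Walk u v), u ∈ side T a b →
      (cut T c d).Reachable u v := by
    intro u v p
    induction p with
    | nil => intro _; exact Reachable.refl _
    | @cons u w v h q ih =>
      intro hu
      have hw : w ∈ side T a b := Reachable.trans hu h.reachable
      have h1 : (cut T c d).Adj u w := by
        refine ⟨h.1, ?_⟩
        intro he
        rcases Sym2.eq_iff.1 he with ⟨rfl, rfl⟩ | ⟨rfl, rfl⟩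
        · rcases hcd with hc | hc
          · exact hc hu
          · exact hc hw
        · rcases hcd with hc | hc
          · exact hc hw
          · exact hc hu
      exact h1.reachable.trans (ih hw)
  exact key x y p hx

/-- `A` is a half-tree. -/
def IsSide (T : SimpleGraph V) (A : Set V) : Prop := ∃ a b, T.Adj a b ∧ A = side T a b

theorem IsSide.compl (hT : T.IsTree) {A : Set V} (hA : IsSide T A) : IsSide T Aᶜ := by
  obtain ⟨a, b, hab, rfl⟩ := hA
  exact ⟨b, a, hab.symm, compl_side hT hab⟩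

theorem IsSide.lam (hT : T.IsTree) {A B : Set V} (hA : IsSide T A) (hB : IsSide T B) {ρ : V}
    (hρA : ρ ∉ A) (hρB : ρ ∉ B) (hne : (A ∩ B).Nonempty) : A ⊆ B ∨ B ⊆ A := by
  obtain ⟨a, b, hab, rfl⟩ := hA
  obtain ⟨c, d, hcd, rfl⟩ := hB
  by_cases h : c ∈ side T a b ∧ d ∈ side T a b
  · right
    intro x hx
    by_contra hxa
    have hx' : x ∈ side T b a := (mem_side_or hT x).resolve_left hxa
    have hρ' : ρ ∈ side T b a := (mem_side_or hT ρ).resolve_left hρA
    have hc : c ∉ side T b a := fun hc => side_disj hT hab h.1 hc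
    have h1 : (cut T c d).Reachable x ρ := side_conn (Or.inl hc) hx' hρ'
    exact hρB (Reachable.trans hx h1)
  · left
    obtain ⟨z, hz1, hz2⟩ := hne
    intro x hx
    have h1 : (cut T c d).Reachable z x := side_conn (not_and_or.1 h) hz1 hx
    exact Reachable.trans hz2 h1

theorem reach_of_avoid {a w u v : V} (q : T.Walk u v) (hq : a ∉ q.support) :
    (cut T a w).Reachable u v := by
  induction q with
  | nil => exact Reachable.refl _
  | @cons u u' v h q ih =>
    rw [Walk.support_cons, List.mem_cons, not_or] at hq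
    have h1 : (cut T a w).Adj u u' := by
      refine ⟨h, ?_⟩
      intro he
      rcases Sym2.eq_iff.1 he with ⟨h1, h2⟩ | ⟨h1, h2⟩
      · exact hq.1 h1.symm
      · exact hq.2 (h2 ▸ q.start_mem_support)
    exact h1.reachable.trans (ih hq.2)

theorem path_mem_side {a x : V} (p : T.Walk a x) (hp : p.IsPath) (hn : ¬ p.Nil) :
    x ∈ side T a p.snd := by
  cases p with
  | nil => simp at hn
  | cons h q =>
    rw [Walk.cons_isPath_iff] at hp
    rw [Walk.snd_cons]
    exact reach_of_avoid q hp.2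

theorem path_snd (hT : T.IsTree) {a b x : V} (hab : T.Adj a b) (p : T.Walk a x)
    (hp : p.IsPath) (hn : ¬ p.Nil) (hx : x ∈ side T a b) : p.snd = b := by
  cases p with
  | nil => simp at hn
  | @cons _ w _ h q =>
    rw [Walk.cons_isPath_iff] at hp
    rw [Walk.snd_cons]
    by_contra hne
    have h1 : (cut T a b).Adj a w := by
      refine ⟨h, ?_⟩
      intro he
      rcases Sym2.eq_iff.1 he with ⟨-, h1⟩ | ⟨h1, -⟩
      · exact hne h1
      · exact hab.ne h1
    have h2 : (cut T a b).Reachable w x := reach_of_avoid q hp.2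
    have h3 : (cut T a b).Reachable b x := hx
    exact not_mem_side hT hab (h3.trans (h1.reachable.trans h2).symm)

/-- The emission half-tree. -/
def emit (r : Request T) : Set V := side T r.s r.path.1.snd

/-- The reception half-tree. -/
def recv (r : Request T) : Set V := side T r.path.1.penultimate r.t

theorem not_nil (r : Request T) : ¬ r.path.1.Nil := Walk.not_nil_of_ne r.ne

theorem adj_emit (r : Request T) : T.Adj r.s r.path.1.snd := Walk.adj_snd (not_nil r)

theorem adj_recv (r : Request T) : T.Adj r.path.1.penultimate r.t :=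
  Walk.adj_penultimate (not_nil r)

theorem not_nil_reverse {a b : V} {p : T.Walk a b} (h : ¬ p.Nil) : ¬ p.reverse.Nil := by
  rw [Walk.nil_reverse]; exact h

theorem interferes_iff (hT : T.IsTree) (r r' : Request T) :
    Interferes r r' ↔ recv r' ⊆ emit r := by
  constructor
  · rintro ⟨p, hp, hn, h1, h2⟩
    have ht : r'.t ∈ side T r.s r.path.1.snd := by
      have := path_mem_side p hp hn
      rwa [h1] at this
    have hs : r.s ∈ side T r'.t r'.path.1.penultimate := by
      have := path_mem_side p.reverse hp.reverse (not_nil_reverse hn)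
      rwa [Walk.snd_reverse, h2] at this
    have hs' : r.s ∉ side T r'.path.1.penultimate r'.t :=
      fun hc => side_disj hT (adj_recv r') hc hs
    intro x hx
    have h3 : (cut T r.s r.path.1.snd).Reachable r'.t x :=
      side_conn (Or.inl hs') (self_mem_side _ _) hx
    exact Reachable.trans ht h3
  · intro hsub
    have ht : r'.t ∈ side T r.s r.path.1.snd := hsub (self_mem_side _ _)
    have hs : r.s ∉ side T r.s r.path.1.snd := not_mem_side hT (adj_emit r)
    have hs' : r.s ∉ side T r'.path.1.penultimate r'.t := fun h => hs (hsub h)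
    have hs'' : r.s ∈ side T r'.t r'.path.1.penultimate :=
      (mem_side_or hT r.s).resolve_left hs'
    have hne : r.s ≠ r'.t := by
      intro h
      rw [← h] at ht
      exact hs ht
    obtain ⟨p, hp, -⟩ := hT.existsUnique_path r.s r'.t
    have hn : ¬ p.Nil := Walk.not_nil_of_ne hne
    refine ⟨p, hp, hn, path_snd hT (adj_emit r) p hp hn ht, ?_⟩
    rw [← Walk.snd_reverse]
    exact path_snd hT (adj_recv r').symm p.reverse hp.reverse (not_nil_reverse hn) hs''

theorem recv_subset_emit (hT : T.IsTree) (r : Request T) : recv r ⊆ emit r :=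
  (interferes_iff hT r r).1 ⟨r.path.1, r.path.2, not_nil r, rfl, rfl⟩

theorem isSide_emit (r : Request T) : IsSide T (emit r) := ⟨_, _, adj_emit r, rfl⟩

theorem isSide_recv (r : Request T) : IsSide T (recv r) := ⟨_, _, adj_recv r, rfl⟩

theorem recv_nonempty (r : Request T) : (recv r).Nonempty := ⟨r.t, self_mem_side _ _⟩

theorem emit_compl_nonempty (hT : T.IsTree) (r : Request T) : ((emit r)ᶜ).Nonempty :=
  ⟨r.s, not_mem_side hT (adj_emit r)⟩

variable {ι : Type v}

open Classical in
/-- Outer sets. -/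
noncomputable def outer (req : ι → Request T) (ρ : V) (i : ι) : Set V :=
  if ρ ∈ recv (req i) then (recv (req i))ᶜ else emit (req i)

open Classical in
/-- Inner sets. -/
noncomputable def inner (req : ι → Request T) (ρ : V) (i : ι) : Set V :=
  if ρ ∈ recv (req i) then (emit (req i))ᶜ else recv (req i)

theorem adj_iff (hT : T.IsTree) (req : ι → Request T) (i j : ι) :
    (interferenceGraph req).Adj i j ↔
      i ≠ j ∧ (recv (req j) ⊆ emit (req i) ∨ recv (req i) ⊆ emit (req j)) := by
  show (i ≠ j ∧ (Interferes (req i) (req j) ∨ Interferes (req j) (req i))) ↔ _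
  rw [interferes_iff hT, interferes_iff hT]

theorem lam_tree (hT : T.IsTree) (req : ι → Request T) (ρ : V) :
    Lam (interferenceGraph req) (fun i => ρ ∉ emit (req i)) (fun i => ρ ∈ recv (req i))
      (outer req ρ) (inner req ρ) := by
  have oP : ∀ i, ρ ∉ emit (req i) → outer req ρ i = emit (req i) := by
    intro i hi
    unfold outer
    rw [if_neg (fun h => hi (recv_subset_emit hT _ h))]
  have iP : ∀ i, ρ ∉ emit (req i) → inner req ρ i = recv (req i) := by
    intro i hi
    unfold inner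
    rw [if_neg (fun h => hi (recv_subset_emit hT _ h))]
  have oQ : ∀ i, ρ ∈ recv (req i) → outer req ρ i = (recv (req i))ᶜ := by
    intro i hi
    unfold outer
    rw [if_pos hi]
  have iQ : ∀ i, ρ ∈ recv (req i) → inner req ρ i = (emit (req i))ᶜ := by
    intro i hi
    unfold inner
    rw [if_pos hi]
  have so : ∀ i, (ρ ∉ emit (req i) ∨ ρ ∈ recv (req i)) →
      IsSide T (outer req ρ i) ∧ ρ ∉ outer req ρ i := by
    rintro i (hi | hi)
    · rw [oP i hi]; exact ⟨isSide_emit _, hi⟩
    · rw [oQ i hi]; exact ⟨(isSide_recv _).compl hT, fun h => h hi⟩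
  have si : ∀ i, (ρ ∉ emit (req i) ∨ ρ ∈ recv (req i)) →
      IsSide T (inner req ρ i) ∧ ρ ∉ inner req ρ i := by
    rintro i (hi | hi)
    · rw [iP i hi]; exact ⟨isSide_recv _, fun h => hi (recv_subset_emit hT _ h)⟩
    · rw [iQ i hi]; exact ⟨(isSide_emit _).compl hT, fun h => h (recv_subset_emit hT _ hi)⟩
  have hsub : ∀ v, (ρ ∉ emit (req v) ∨ ρ ∈ recv (req v)) → inner req ρ v ⊆ outer req ρ v := by
    rintro i (hi | hi)
    · rw [iP i hi, oP i hi]; exact recv_subset_emit hT _
    · rw [iQ i hi, oQ i hi]; exact Set.compl_subset_compl.2 (recv_subset_emit hT _)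
  refine ⟨hsub, ?_, ?_, ?_, ?_, ?_, ?_, ?_⟩
  · rintro i (hi | hi)
    · rw [iP i hi]; exact recv_nonempty _
    · rw [iQ i hi]; exact emit_compl_nonempty hT _
  · intro v w hv hw hne
    exact (so v hv).1.lam hT (so w hw).1 (so v hv).2 (so w hw).2 hne
  · intro v w hv hw hne
    exact (so v hv).1.lam hT (si w hw).1 (so v hv).2 (si w hw).2 hne
  · intro v w hv hw hne
    exact (si v hv).1.lam hT (si w hw).1 (si v hv).2 (si w hw).2 hne
  · -- both in the first class
    intro v w hv hw hvw
    rw [adj_iff hT, oP v hv, oP w hw]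
    constructor
    · rintro ⟨-, h | h⟩
      · obtain ⟨x, hx⟩ := recv_nonempty (req w)
        exact ⟨x, h hx, recv_subset_emit hT _ hx⟩
      · obtain ⟨x, hx⟩ := recv_nonempty (req v)
        exact ⟨x, recv_subset_emit hT _ hx, h hx⟩
    · intro hne
      refine ⟨hvw, ?_⟩
      rcases (isSide_emit (req v)).lam hT (isSide_emit (req w)) hv hw hne with h | h
      · exact Or.inr ((recv_subset_emit hT _).trans h)
      · exact Or.inl ((recv_subset_emit hT _).trans h)
  · -- both in the second class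
    intro v w hv hw hvw
    rw [adj_iff hT, oQ v hv, oQ w hw]
    constructor
    · rintro ⟨-, h | h⟩
      · obtain ⟨x, hx⟩ := emit_compl_nonempty hT (req v)
        exact ⟨x, fun hc => hx (recv_subset_emit hT _ hc), fun hc => hx (h hc)⟩
      · obtain ⟨x, hx⟩ := emit_compl_nonempty hT (req w)
        exact ⟨x, fun hc => hx (h hc), fun hc => hx (recv_subset_emit hT _ hc)⟩
    · intro hne
      refine ⟨hvw, ?_⟩
      rcases ((isSide_recv (req v)).compl hT).lam hT ((isSide_recv (req w)).compl hT)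
        (fun h => h hv) (fun h => h hw) hne with h | h
      · exact Or.inl ((Set.compl_subset_compl.1 h).trans (recv_subset_emit hT _))
      · exact Or.inr ((Set.compl_subset_compl.1 h).trans (recv_subset_emit hT _))
  · -- one in each class
    intro v w hv hw
    rw [adj_iff hT, iP v hv, iQ w hw]
    constructor
    · rintro ⟨-, h | h⟩
      · exact absurd (h hw) hv
      · rintro ⟨x, hx1, hx2⟩
        exact hx2 (h hx1)
    · intro hne
      refine ⟨?_, Or.inr ?_⟩
      · rintro rfl
        exact hv (recv_subset_emit hT _ hw)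
      · intro x hx
        by_contra hc
        exact hne ⟨x, hx, hc⟩

/-- The third class has no three pairwise non-adjacent vertices. -/
theorem third_class (hT : T.IsTree) (req : ι → Request T) (ρ : V) (J : Finset ι)
    (hJ : ∀ v ∈ J, ρ ∈ emit (req v) ∧ ρ ∉ recv (req v))
    (hI : (interferenceGraph req).IsIndepSet (J : Set ι)) : J.card ≤ 2 := by
  classical
  by_contra hc
  push Not at hc
  obtain ⟨x, y, z, hx, hy, hz, hxy, hxz, hyz⟩ := Finset.two_lt_card_iff.1 hc
  -- `A v := (emit v)ᶜ`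
  have meet : ∀ v ∈ J, ∀ w ∈ J, v ≠ w → ((emit (req v))ᶜ ∩ recv (req w)).Nonempty := by
    intro v hv w hw hvw
    have h1 : ¬ (interferenceGraph req).Adj v w := hI hv hw hvw
    rw [adj_iff hT] at h1
    have h2 : ¬ recv (req w) ⊆ emit (req v) := fun h => h1 ⟨hvw, Or.inl h⟩
    obtain ⟨a, ha1, ha2⟩ := Set.not_subset.1 h2
    exact ⟨a, ha2, ha1⟩
  have own : ∀ v a, a ∈ (emit (req v))ᶜ → a ∈ recv (req v) → False :=
    fun v a h1 h2 => h1 (recv_subset_emit hT _ h2)
  have nest : ∀ v ∈ J, ∀ w ∈ J, v ≠ w →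
      (emit (req v))ᶜ ⊆ recv (req w) ∨ recv (req w) ⊆ (emit (req v))ᶜ := by
    intro v hv w hw hvw
    exact ((isSide_emit (req v)).compl hT).lam hT (isSide_recv (req w))
      (fun h => h (hJ v hv).1) (hJ w hw).2 (meet v hv w hw hvw)
  -- no `v` has its `A` inside two reception sets
  have no2 : ∀ u ∈ J, ∀ v ∈ J, ∀ w ∈ J, u ≠ v → u ≠ w → v ≠ w →
      (emit (req u))ᶜ ⊆ recv (req v) → False := by
    intro u hu v hv w hw huv huw hvw h1
    rcases nest u hu w hw huw with h2 | h2
    · -- `A u ⊆ R v ∩ R w`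
      obtain ⟨a, ha⟩ := emit_compl_nonempty hT (req u)
      rcases (isSide_recv (req v)).lam hT (isSide_recv (req w)) (hJ v hv).2 (hJ w hw).2
        ⟨a, h1 ha, h2 ha⟩ with h3 | h3
      · obtain ⟨b, hb1, hb2⟩ := meet w hw v hv (Ne.symm hvw)
        exact own w b hb1 (h3 hb2)
      · obtain ⟨b, hb1, hb2⟩ := meet v hv w hw hvw
        exact own v b hb1 (h3 hb2)
    · -- `R w ⊆ A u ⊆ R v`
      obtain ⟨b, hb1, hb2⟩ := meet v hv w hw hvw
      exact own v b hb1 (h1 (h2 hb2))
  have h1 : recv (req y) ⊆ (emit (req x))ᶜ := by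
    rcases nest x hx y hy hxy with h | h
    · exact (no2 x hx y hy z hz hxy hxz hyz h).elim
    · exact h
  have h2 : recv (req z) ⊆ (emit (req x))ᶜ := by
    rcases nest x hx z hz hxz with h | h
    · exact (no2 x hx z hz y hy hxz hxy (Ne.symm hyz) h).elim
    · exact h
  -- `A y` meets `R x` and `R z`
  obtain ⟨a, ha1, ha2⟩ := meet y hy z hz hyz
  obtain ⟨b, hb1, hb2⟩ := meet y hy x hx (Ne.symm hxy)
  rcases ((isSide_emit (req y)).compl hT).lam hT ((isSide_emit (req x)).compl hT)
    (fun h => h (hJ y hy).1) (fun h => h (hJ x hx).1) ⟨a, ha1, h2 ha2⟩ with h3 | h3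
  · exact own x b (h3 hb1) hb2
  · obtain ⟨c, hc⟩ := recv_nonempty (req y)
    exact own y c (h3 (h1 hc)) hc

end TreePart

/-- **Main result.** Every run of greedy MIS colouring on the interference graph of a finite
family of requests in a tree uses at most `10 · χ` colours. -/
theorem result {V : Type u} (T : SimpleGraph V) (hT : T.IsTree) {ι : Type v} [Fintype ι]
    [DecidableEq ι] (req : ι → Request T) (k : ℕ)
    (hrun : GreedyRun (interferenceGraph req) Finset.univ k) :
    (k : ℕ∞) ≤ 10 * (interferenceGraph req).chromaticNumber := by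
  obtain ⟨ρ⟩ := hT.connected.nonempty
  have hcol := colorable_chromaticNumber_of_fintype (interferenceGraph req)
  have hne : (interferenceGraph req).chromaticNumber ≠ ⊤ :=
    chromaticNumber_ne_top_iff_exists.2 ⟨_, hcol⟩
  have h1 : k ≤ 10 * ENat.toNat (interferenceGraph req).chromaticNumber := by
    refine abstract_bound (lam_tree hT req ρ)
      (S := fun i => ρ ∈ emit (req i) ∧ ρ ∉ recv (req i)) ?_ ?_ hcol hrun
    · intro v
      by_cases h : ρ ∈ emit (req v)
      · by_cases h' : ρ ∈ recv (req v)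
        · exact Or.inr (Or.inl h')
        · exact Or.inr (Or.inr ⟨h, h'⟩)
      · exact Or.inl h
    · intro J hJ hI
      exact third_class hT req ρ J hJ hI
  rw [← ENat.coe_toNat hne]
  exact_mod_cast h1

end Pool.Agent.Results.MP_9b45c5_lc.GreedyMISTenApprox
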